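import Pool.Agent.H34.R2.Mid
import Pool.Agent.H34.R2.StairB
import Pool.Agent.H34.PLE.SphereTop

/-! The arc complex of the annulus with two punctures. -/

namespace Pool.Agent.H34.R2

open Pool.Agent.H34.PLE Pool.Agent.H34.PLE.Stair Pool.Agent.H96.Arc

theorem toStair : PLHomeo (arcComplex 0 2 2) (stairGlue 3 4) :=
  (((A022.homeo.trans PA.homeoA).trans Mid.homeo).trans PB.homeoB.symm).trans homeoStair

theorem onto : PLHomeoOnto (arcComplex 0 2 2) (bdSx 3 ×ˢ bdSx 4) :=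
  (stair_onto (by decide) (by decide)).of_plHomeo toStair

theorem spheres : Nonempty ((arcComplex 0 2 2).Real ≃ₜ
    Metric.sphere (0 : EuclideanSpace ℝ (Fin 3)) 1 × Metric.sphere (0 : EuclideanSpace ℝ (Fin 4)) 1) := by
  obtain ⟨e⟩ := onto.homeomorph
  obtain ⟨e3⟩ := bdSx_homeo_sphere 3 (by decide)
  obtain ⟨e4⟩ := bdSx_homeo_sphere 4 (by decide)
  exact ⟨(e.trans (Homeomorph.Set.prod _ _)).trans (e3.prodCongr e4)⟩

end Pool.Agent.H34.R2
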