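import Pool.Agent.H34.R2.PAEnd
import Pool.Agent.H34.R2.PBEnd

/-! The last complexes of the two paths are isomorphic (generated). -/

namespace Pool.Agent.H34.R2.Mid

open Pool.Agent.H34.PLE

/-- the bijection of the facets -/
def eF : Fin 6 → Fin 6 := ![5, 3, 1, 2, 4, 0]

/-- its inverse -/
def eI : Fin 6 → Fin 6 := ![5, 2, 3, 1, 4, 0]

/-- the permutations of the coordinates -/
def pF : Fin 6 → Fin 6 → Fin 6 := ![![4, 5, 0, 1, 2, 3], ![5, 3, 4, 0, 1, 2], ![4, 5, 3, 0, 1, 2], ![4, 5, 3, 0, 1, 2], ![5, 3, 4, 0, 1, 2], ![4, 5, 2, 3, 0, 1]]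

/-- their inverses -/
def pI : Fin 6 → Fin 6 → Fin 6 := ![![2, 3, 4, 5, 0, 1], ![3, 4, 5, 1, 2, 0], ![3, 4, 5, 2, 0, 1], ![3, 4, 5, 2, 0, 1], ![3, 4, 5, 1, 2, 0], ![4, 5, 2, 3, 0, 1]]

theorem homeo : PLHomeo (glueL 5 24 Pool.Agent.H34.R2.PA.Ls1) (glueL 5 24 Pool.Agent.H34.R2.PB.Ls1) :=
  PLHomeo.reorder_fin (n := 5) (N := 6) (fun i => row 5 24 (Pool.Agent.H34.R2.PA.Ls1.get i)) (fun i => row 5 24 (Pool.Agent.H34.R2.PB.Ls1.get i)) eF eI pF pI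
    (by decide +kernel) (by decide +kernel) (by decide +kernel)

end Pool.Agent.H34.R2.Mid
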