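import Pool.Agent.H34.R2.PA0
import Pool.Agent.H34.R2.PA1
import Pool.Agent.H34.R2.PA2
import Pool.Agent.H34.R2.PA3
import Pool.Agent.H34.R2.PA4
import Pool.Agent.H34.R2.PA5
import Pool.Agent.H34.R2.PA6
import Pool.Agent.H34.R2.PA7
import Pool.Agent.H96.Arc.A022

/-! The path from the first to the last complex (generated). -/

namespace Pool.Agent.H34.R2.PA

open Pool.Agent.H34.PLE

/-- the codes of the facets of the last complex -/
def Ls1 : List ℕ := [0xee6e70ecafd0ecafd0ee6e40ee6620ee662, 0xee6ff0ee1660ed76d0ee6a40ede2c0ee6e4, 0xee6bf0ee17e0edfb50eca770ede2c0ee6a4, 0xee1ff0ee17e0ee6bf0eca770ed7af0ee6a7, 0xee1e70ee1660ee6ff0ee6a70ed7af0ee6e7, 0xee18f0ee18f0ee1ff0edfb50ed76d0ee1e7]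

theorem link : Link 5 24 t0 289 t30 976673 :=
  (((((((((((((((((((((((((((((l0.trans l1).trans l2).trans l3).trans l4).trans l5).trans l6).trans l7).trans l8).trans l9).trans l10).trans l11).trans l12).trans l13).trans l14).trans l15).trans l16).trans l17).trans l18).trans l19).trans l20).trans l21).trans l22).trans l23).trans l24).trans l25).trans l26).trans l27).trans l28).trans l29)

theorem homeoA : PLHomeo (glueL 5 24 Pool.Agent.H96.Arc.A022.Rs) (glueL 5 24 Ls1) :=
  path_glueL (W := 144) (pW := 0x1000000000000000000000000000000000000) (cap := 8) (pC := 2 ^ 1152) (pw := 0x1000000) link rfl (by decide) (by decide +kernel) (by decide +kernel)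
    (by decide +kernel) (by decide +kernel) (by decide +kernel) (by decide +kernel) (by decide +kernel) (by decide +kernel)

end Pool.Agent.H34.R2.PA
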